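import Pool.Agent.Helper97.Nag.Goals

/-!
# Project NAG, packet WID
-/

set_option autoImplicit false

namespace Pool.Agent.Helper85.Nag.WID

open Pool.Agent.Helper97.Nag

theorem key (k r p d m j l : ℝ) (Om eta M mj jm κ κm : ℝ) (hr : r ≠ 0) (hk : k ≠ 0)
    (hp : r * p = k ^ 2) (hκ : κ = k * (d - k * M)) (hκm : κm = k * (d - k * m))
    (h : (M = m ∧ mj = m - j ∧ jm = 0) ∨ (M = j ∧ mj = 0 ∧ jm = j - m)) :
    (κ / 2 - κ * ((Om + eta + p * (r - 1) / 2) / k ^ 2 - 0 / r) - mj * Om) - κ / (2 * r) =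
      -(d / k - j) * Om - (d / k - M) * eta ∧
    -((κ / 2 - κ * ((Om + eta + p * (r - 1) / 2) / k ^ 2 - 0 / r) - mj * Om) * l / r) -
      l ^ 2 * κ / (2 * r ^ 2) +
      jm * (-(p * l * (l + 1) / (2 * r)) + p * l * eta / k ^ 2) + j * (Om * l / r) +
      ((κm / 2 - κm * ((Om + eta + p * (r - 1) / 2) / k ^ 2 - 0 / r)) * l / r +
        l ^ 2 * κm / (2 * r ^ 2) - Om * l * m / r) = 0 := by
  have hp' : p = k ^ 2 / r := by
    field_simp
    linarith
  subst hκ hκm hp'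
  rcases h with ⟨rfl, rfl, rfl⟩ | ⟨rfl, rfl, rfl⟩
  · constructor
    · field_simp
      ring
    · field_simp
      ring
  · constructor
    · field_simp
      ring
    · field_simp
      ring

theorem t : S_WID := by
  intro k r p d m Om eta hr hp hrp hk hkm j l κ C Cm κm hj hκ hκm hC hCm
  have hrR : (r : ℝ) ≠ 0 := by positivity
  have hkR : (k : ℝ) ≠ 0 := by positivity
  have hrpR : (r : ℝ) * p = (k : ℝ) ^ 2 := by exact_mod_cast hrp
  have hcast : ∀ i : ℕ, k * i ≤ d → ((k * (d - k * i) : ℕ) : ℝ) = (k : ℝ) * (d - k * i) := by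
    intro i hi
    rw [Nat.cast_mul, Nat.cast_sub hi, Nat.cast_mul]
  have hκm' : κm = (k : ℝ) * (d - k * (m : ℝ)) := by
    rw [hκm, kap, max_self]
    exact hcast m hkm.le
  have hmax : k * max j m ≤ d := by
    rcases le_total j m with h | h
    · rw [max_eq_right h]; exact hkm.le
    · rw [max_eq_left h]; exact hj
  have hκ' : κ = (k : ℝ) * (d - k * ((max j m : ℕ) : ℝ)) := by
    rw [hκ, kap]
    exact hcast _ hmax
  have hcase : (((max j m : ℕ) : ℝ) = (m : ℝ) ∧ ((m - j : ℕ) : ℝ) = (m : ℝ) - j ∧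
      ((j - m : ℕ) : ℝ) = 0) ∨ (((max j m : ℕ) : ℝ) = (j : ℝ) ∧ ((m - j : ℕ) : ℝ) = 0 ∧
      ((j - m : ℕ) : ℝ) = (j : ℝ) - m) := by
    rcases le_total j m with h | h
    · left
      refine ⟨by rw [max_eq_right h], Nat.cast_sub h, ?_⟩
      rw [Nat.sub_eq_zero_of_le h, Nat.cast_zero]
    · right
      refine ⟨by rw [max_eq_left h], ?_, Nat.cast_sub h⟩
      rw [Nat.sub_eq_zero_of_le h, Nat.cast_zero]
  have hk := key k r p d m j l Om eta ((max j m : ℕ) : ℝ) ((m - j : ℕ) : ℝ) ((j - m : ℕ) : ℝ)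
    κ κm hrR hkR hrpR hκ' hκm' hcase
  have hC' : C = κ / 2 - κ * ((Om + eta + p * (r - 1) / 2) / (k : ℝ) ^ 2 - 0 / r) -
      ((m - j : ℕ) : ℝ) * Om := by
    rw [hC, wx, Nat.cast_zero]
  have hCm' : Cm = κm / 2 - κm * ((Om + eta + p * (r - 1) / 2) / (k : ℝ) ^ 2 - 0 / r) := by
    rw [hCm, wx, Nat.cast_zero]
  rw [hC', hCm']
  exact ⟨hk.1, hk.2⟩

end Pool.Agent.Helper85.Nag.WID
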